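import Pool.Agent.Lib.lead.CXBase
import Pool.Agent.Lib.helper26.CXHamH

namespace Pool.Agent.Results.MP_975cd4_lc.Hard
open Pool.Agent.Lib.CX Finset

/-- a table of arcs: entry `none` = no arc, `some (c, u)` = an arc with cost `c` and capacity `u` -/
abbrev Arcs := List (List (Option (ℚ × ℚ)))
def ent (M : Arcs) (u v : ℕ) : Option (ℚ × ℚ) := (M.getD u []).getD v none
def cost (M : Arcs) (u v : ℕ) : ℚ := (ent M u v).elim 0 (·.1)
def cap (M : Arcs) (u v : ℕ) : ℚ := (ent M u v).elim 0 (·.2)

/-- one quality: inputs (capacity, quality value), pools (capacity), outputs (capacity, quality bound),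
arcs input-pool, arcs pool-output, bound on the objective -/
abbrev Inst := List (ℚ × ℚ) × List ℚ × List (ℚ × ℚ) × Arcs × Arcs × ℚ

/-- every pool and every output has in-degree at most two -/
def InDeg2 : Inst → Prop
  | (I, L, J, A, B, _) => (∀ l < L.length, ((range I.length).filter fun i => (ent A i l).isSome).card ≤ 2) ∧
    ∀ j < J.length, ((range L.length).filter fun l => (ent B l j).isSome).card ≤ 2

/-- there is a feasible solution of cost at most the bound (flows vanish off the arcs, where `cap = 0`) -/
def Yes : Inst → Prop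
  | (I, L, J, A, B, k) => ∃ (x y : ℕ → ℕ → ℝ) (p : ℕ → ℝ),
    (∀ i < I.length, ∀ l < L.length, 0 ≤ x i l ∧ x i l ≤ cap A i l) ∧
    (∀ l < L.length, ∀ j < J.length, 0 ≤ y l j ∧ y l j ≤ cap B l j) ∧
    (∀ i < I.length, ∑ l ∈ range L.length, x i l ≤ (I.getD i 0).1) ∧
    (∀ l < L.length, ∑ i ∈ range I.length, x i l = ∑ j ∈ range J.length, y l j ∧
      ∑ i ∈ range I.length, x i l ≤ L.getD l 0 ∧
      ∑ i ∈ range I.length, (I.getD i 0).2 * x i l = p l * ∑ j ∈ range J.length, y l j) ∧
    (∀ j < J.length, ∑ l ∈ range L.length, y l j ≤ (J.getD j 0).1 ∧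
      ∑ l ∈ range L.length, p l * y l j ≤ (J.getD j 0).2 * ∑ l ∈ range L.length, y l j) ∧
    ∑ l ∈ range L.length, (∑ i ∈ range I.length, cost A i l * x i l + ∑ j ∈ range J.length, cost B l j * y l j) ≤ k

def E (es : List (ℕ × ℕ)) (l j : ℕ) : Option (ℚ × ℚ) :=
  if j < es.length then (if l = (es.getD j (0, 0)).1 ∨ l = (es.getD j (0, 0)).2 then some (-1, 1) else none)
  else if l = j - es.length then some (0, 1) else none
def red (a : List Unit × List (ℕ × ℕ) × ℕ) : Inst :=
  ([(((a.1.length * (a.2.1.length + a.1.length) : ℕ) : ℤ), 0), (((a.1.length : ℕ) : ℤ), 1)],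
    a.1.map fun _ => ((a.2.1.length + a.1.length : ℕ) : ℤ),
    (List.range (a.2.1.length + a.1.length)).map fun j => (1, if j < a.2.1.length then 0 else 1),
    [a.1.map fun _ => some (0, ((a.2.1.length + a.1.length : ℕ) : ℤ)), a.1.map fun _ => some (-1, 1)],
    (List.range a.1.length).map fun l => (List.range (a.2.1.length + a.1.length)).map (E a.2.1 l),
    ((a.2.2 : ℤ) - a.1.length - a.2.1.length : ℤ))

theorem ent_B (n : ℕ) (es : List (ℕ × ℕ)) {l j : ℕ} (hl : l < n) (hj : j < es.length + n) :
    ent ((List.range n).map fun l => (List.range (es.length + n)).map (E es l)) l j = E es l j := by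
  simp [ent, hl, hj]

theorem valid (a : List Unit × List (ℕ × ℕ) × ℕ) : InDeg2 (red a) := by
  refine ⟨fun l _ => (card_filter_le _ _).trans (by simp), fun j hj => ?_⟩
  simp only [List.length_map, List.length_range] at hj ⊢
  refine (card_le_card (t := {if j < a.2.1.length then (a.2.1.getD j (0, 0)).1 else j - a.2.1.length,
    (a.2.1.getD j (0, 0)).2}) fun l hl => ?_).trans card_le_two
  rw [mem_filter, mem_range] at hl
  rw [ent_B _ _ hl.1 hj, E] at hl
  split_ifs at hl ⊢ <;> simp_all

theorem key (n : List Unit) (es : List (ℕ × ℕ)) (k : ℕ) (h1 : ∀ e ∈ es, e.1 < e.2 ∧ e.2 < n.length) :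
    (∃ S : Finset ℕ, (∀ x ∈ S, x < n.length) ∧ (∀ e ∈ es, e.1 ∈ S ∨ e.2 ∈ S) ∧ S.card ≤ k) ↔ Yes (red (n, es, k)) := by
  have hm : ∀ u < es.length, es.getD u (0, 0) ∈ es := fun u hu => by
    rw [List.getD_eq_getElem _ _ hu]; exact List.getElem_mem _
  have e : Yes (red (n, es, k)) ↔ ∃ (x y : ℕ → ℕ → ℝ) (p : ℕ → ℝ),
      (∀ l < n.length, (0 ≤ x 0 l ∧ x 0 l ≤ es.length + n.length) ∧ 0 ≤ x 1 l ∧ x 1 l ≤ 1) ∧
      (∀ l < n.length, ∀ j < es.length + n.length, 0 ≤ y l j ∧ y l j ≤ ((E es l j).elim 0 (·.2) : ℚ)) ∧
      (∑ l ∈ range n.length, x 0 l ≤ n.length * (es.length + n.length) ∧ ∑ l ∈ range n.length, x 1 l ≤ n.length) ∧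
      (∀ l < n.length, x 0 l + x 1 l = ∑ j ∈ range (es.length + n.length), y l j ∧
        x 0 l + x 1 l ≤ es.length + n.length ∧ x 1 l = p l * ∑ j ∈ range (es.length + n.length), y l j) ∧
      (∀ j < es.length + n.length, ∑ l ∈ range n.length, y l j ≤ 1 ∧
        ∑ l ∈ range n.length, p l * y l j ≤ (if j < es.length then 0 else 1) * ∑ l ∈ range n.length, y l j) ∧
      ∑ l ∈ range n.length, (-x 1 l + ∑ j ∈ range (es.length + n.length), ((E es l j).elim 0 (·.1) : ℚ) * y l j) ≤
        k - n.length - es.length := by
    simp only [Yes, red, List.length_map, List.length_range]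
    refine exists₃_congr fun x y p => and_congr ?_ (and_congr ?_ (and_congr ?_ (and_congr ?_ (and_congr ?_ ?_))))
    · simp only [List.length_cons, List.length_nil, Nat.forall_lt_succ_right, not_lt_zero, IsEmpty.forall_iff,
        implies_true, true_and, ← forall₂_and]
      exact forall₂_congr fun l hl => by simp [cap, ent, hl]
    · exact forall₂_congr fun l hl => forall₂_congr fun j hj => by rw [cap, ent_B _ _ hl hj]
    · simp [Nat.le_one_iff_eq_zero_or_eq_one]
    · exact forall₂_congr fun l hl => by simp [sum_range_succ, hl]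
    · exact forall₂_congr fun j hj => by split_ifs with h <;> simp [hj, h]
    · rw [sum_congr rfl]
      · simp; rfl
      · intro l hl
        have hl := mem_range.1 hl
        congr 1
        · simp [sum_range_succ, cost, ent, hl]
        · exact sum_congr rfl fun j hj => by rw [cost, ent_B _ _ hl (mem_range.1 hj)]
  rw [e]
  clear e
  constructor
  · rintro ⟨S, s1, s2, s3⟩
    let t : ℕ → ℕ := fun j => if j < es.length then
      (if (es.getD j (0, 0)).1 ∈ S then (es.getD j (0, 0)).1 else (es.getD j (0, 0)).2) else j - es.length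
    let y : ℕ → ℕ → ℝ := fun l j => if l = t j ∧ (j < es.length ↔ l ∈ S) then 1 else 0
    have t1 : ∀ j < es.length, t j ∈ S ∧ E es (t j) j = some (-1, 1) := fun j hj => by
      have := s2 _ (hm j hj)
      simp only [t, E, hj, if_true]
      split_ifs with a b b
      exacts [⟨a, rfl⟩, (b (.inl rfl)).elim, ⟨this.resolve_left a, rfl⟩, (b (.inr rfl)).elim]
    have t2 : ∀ j, ¬ j < es.length → E es (t j) j = some (0, 1) := fun j hj => by simp [t, E, hj]
    have y0 : ∀ l j, 0 ≤ y l j ∧ y l j ≤ 1 := fun l j => by simp only [y]; split_ifs <;> simp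
    have y1 : ∀ l, 0 ≤ ∑ j ∈ range (es.length + n.length), y l j ∧
        ∑ j ∈ range (es.length + n.length), y l j ≤ es.length + n.length := fun l =>
      ⟨sum_nonneg fun j _ => (y0 l j).1, (sum_le_sum fun j _ => (y0 l j).2).trans (by simp)⟩
    have y2 : ∀ l < n.length, l ∉ S → ∑ j ∈ range (es.length + n.length), y l j = 1 := fun l hl h => by
      rw [sum_eq_single (es.length + l) (fun j _ e => if_neg fun c => ?_) (by simp [hl])]
      · simp [t, h]
      · simp only [h, iff_false] at c
        have := c.1
        simp only [t, c.2, if_false] at this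
        omega
    have y3 : ∀ (f : ℕ → ℝ) j, ∑ l ∈ range n.length, f l * y l j = if t j < n.length then f (t j) * y (t j) j else 0 :=
      fun f j => by
        simp only [← mem_range]
        rw [← sum_ite_eq' (range n.length) (t j) fun l => f l * y l j]
        exact sum_congr rfl fun l _ => by by_cases e : l = t j <;> simp [y, e]
    refine ⟨fun i l => if i = 0 then (if l ∈ S then ∑ j ∈ range (es.length + n.length), y l j else 0) else
      if l ∈ S then 0 else 1, y, fun l => if l ∈ S then 0 else 1, fun l hl => ?_, fun l hl j hj => ⟨(y0 l j).1, ?_⟩,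
      ⟨?_, ?_⟩, fun l hl => ?_, fun j hj => ⟨?_, ?_⟩, ?_⟩
    · by_cases h : l ∈ S <;> simp [h, y1 l]; positivity
    · by_cases e : l = t j
      · by_cases c : j < es.length <;> simp [e, t1, t2, c, y0]
      · simp only [y, e, false_and, if_false, E]; split_ifs <;> simp
    · refine (sum_le_card_nsmul _ _ (es.length + n.length : ℝ) fun l _ => ?_).trans (by simp [mul_add])
      by_cases h : l ∈ S <;> simp [h, y1 l]; positivity
    · refine (sum_le_card_nsmul _ _ (1 : ℝ) fun l _ => ?_).trans (by simp)
      by_cases h : l ∈ S <;> simp [h]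
    · by_cases h : l ∈ S
      · simp [h, y1 l]
      · simp only [h, y2 l hl h, if_false]; simp; norm_cast; omega
    · have := y3 (fun _ => 1) j
      simp only [one_mul] at this
      rw [this]; split_ifs <;> simp [y0]
    · by_cases c : j < es.length
      · rw [y3]; simp [c, t1]
      · simp only [c, if_false, one_mul]
        exact sum_le_sum fun l _ => by split_ifs <;> simp [y0]
    · rw [sum_add_distrib, sum_comm, sum_range_add]
      have a1 : ∑ j ∈ range es.length, ∑ l ∈ range n.length, (((E es l j).elim 0 (·.1) : ℚ) : ℝ) * y l j = -es.length := by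
        rw [sum_congr rfl (g := fun _ => -1) fun j hj => ?_]
        · simp
        · have hj := mem_range.1 hj
          rw [y3]; simp [t1 j hj, s1 _ (t1 j hj).1, y, hj]
      have a2 : ∑ j ∈ range n.length, ∑ l ∈ range n.length,
          (((E es l (es.length + j)).elim 0 (·.1) : ℚ) : ℝ) * y l (es.length + j) = 0 :=
        sum_eq_zero fun j hj => by rw [y3]; simp [t2]
      have a3 : ∑ l ∈ range n.length, (if l ∈ S then (0 : ℝ) else 1) = n.length - S.card := by
        rw [sum_ite, ← sdiff_eq_filter]
        simp [cast_card_sdiff (show S ⊆ range n.length from fun x hx => mem_range.2 (s1 x hx))]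
      have a4 : (S.card : ℝ) ≤ k := by exact_mod_cast s3
      simp only [a1, a2, one_ne_zero, if_false, sum_neg_distrib, a3]
      linarith
  · rintro ⟨x, y, p, c1, c2, -, c3, c4, c5⟩
    let Z := (range n.length).filter fun l => x 1 l ≤ 0
    let U := (range es.length).filter fun j => (es.getD j (0, 0)).1 ∉ Z ∧ (es.getD j (0, 0)).2 ∉ Z
    have y1 : ∀ l < n.length, ∀ j < es.length + n.length, y l j ≤ ∑ j ∈ range (es.length + n.length), y l j :=
      fun l hl j hj => single_le_sum (fun j hj => (c2 l hl j (mem_range.1 hj)).1) (mem_range.2 hj)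
    have p1 : ∀ l < n.length, ∀ j < es.length + n.length, 0 ≤ p l * y l j := fun l hl j hj => by
      have := y1 l hl j hj
      have := (c2 l hl j hj).1
      have := (c3 l hl).2.2
      have := (c1 l hl).2.1
      by_contra h
      have : p l < 0 := by by_contra h'; exact h (mul_nonneg (not_lt.1 h') (c2 l hl j hj).1)
      nlinarith
    have a1 : ∀ j ∈ U, ∀ l < n.length, y l j = 0 := fun j hj l hl => by
      simp only [U, mem_filter, mem_range] at hj
      have b1 := c2 l hl j (by omega)
      by_cases h : l ∈ Z
      · rw [E, if_pos hj.1, if_neg (by rintro (rfl | rfl); exacts [hj.2.1 h, hj.2.2 h])] at b1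
        simp at b1; linarith
      · have b2 : 0 < x 1 l := by simpa [Z, hl] using h
        have b3 := (c4 j (by omega)).2
        have b4 := single_le_sum (fun l hl => p1 l (mem_range.1 hl) j (by omega)) (mem_range.2 hl)
        have b5 := y1 l hl j (by omega)
        rw [(c3 l hl).2.2] at b2
        have b6 : 0 < p l := pos_of_mul_pos_left b2 (b1.1.trans b5)
        simp only [hj.1, if_true, zero_mul] at b3
        nlinarith
    have a2 : ∀ j ∈ range (es.length + n.length), (if j ∈ range es.length \ U then -1 else 0) ≤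
        ∑ l ∈ range n.length, (((E es l j).elim 0 (·.1) : ℚ) : ℝ) * y l j := fun j hj => by
      have hj := mem_range.1 hj
      split_ifs with h
      · refine le_trans (neg_le_neg (c4 j hj).1) ?_
        rw [← sum_neg_distrib]
        refine sum_le_sum fun l hl => ?_
        have := (c2 l (mem_range.1 hl) j hj).1
        unfold E; split_ifs <;> simp [this]
      · refine (sum_eq_zero fun l hl => ?_).ge
        by_cases c : j < es.length
        · rw [a1 j (by simpa [c] using h) l (mem_range.1 hl), mul_zero]
        · unfold E; split_ifs <;> simp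
    have a3 : ∀ l ∈ range n.length, (if l ∈ range n.length \ Z then -1 else 0) ≤ -x 1 l := fun l hl => by
      have := c1 l (mem_range.1 hl)
      split_ifs with h
      · linarith
      · have : x 1 l ≤ 0 := by simpa [Z, mem_range.1 hl] using h
        linarith
    rw [sum_add_distrib, sum_comm] at c5
    have a4 := sum_le_sum a2
    have a5 := sum_le_sum a3
    rw [sum_ite_mem, inter_eq_right.2 (sdiff_subset.trans (by simp)), sum_const, nsmul_eq_mul,
      cast_card_sdiff (filter_subset _ _), card_range] at a4 a5
    refine ⟨Z ∪ U.image fun j => (es.getD j (0, 0)).1, fun v hv => ?_, fun e he => ?_, (card_union_le _ _).trans ?_⟩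
    · rcases mem_union.1 hv with h | h
      · exact mem_range.1 (mem_filter.1 h).1
      · obtain ⟨j, hj, rfl⟩ := mem_image.1 h
        have := h1 _ (hm j (mem_range.1 (mem_filter.1 hj).1))
        omega
    · obtain ⟨j, hj, rfl⟩ := List.getElem_of_mem he
      by_contra h
      simp only [mem_union, not_or] at h
      exact h.1.2 (mem_image.2 ⟨j, by simp [U, hj, h.1.1, h.2.1], by simp [hj]⟩)
    · have a6 := card_image_le (s := U) (f := fun j => (es.getD j (0, 0)).1)
      have a7 : (Z.card + U.card : ℝ) ≤ k := by linarith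
      norm_cast at a7
      omega

set_option synthInstance.maxSize 2000 in
theorem result : NPHard fun a : {a : Inst // InDeg2 a} => Yes a.1 := by
  have h : PT red := by unfold red E; fun_prop
  exact NPHard.of_vc (fun a => ⟨red a, valid a⟩) (PT.subtype h valid) fun n es k h1 _ _ => key n es k h1

end Pool.Agent.Results.MP_975cd4_lc.Hard
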